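import Pool.Agent.X147.UpperK

/-!
The upper `k`-domination number of a graph is not strictly increasing in `k`: the drop from
`k = 3` to `k = 4` can be arbitrarily large.
-/

set_option autoImplicit false

namespace Pool.Agent.Results.MP_92077f_co.NotMonotone

open Finset

open scoped Classical in
/-- `g(N[v])`: the sum of `g` over the closed neighbourhood of `v` -/
noncomputable def nsum {V : Type} [Fintype V] (G : SimpleGraph V) (g : V → ℕ) (v : V) : ℕ :=
  ∑ w ∈ univ.filter (fun w => w = v ∨ G.Adj v w), g w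

/-- `g : V → {0, ..., k}` is a `k`-dominating function -/
def IsKDom {V : Type} [Fintype V] (G : SimpleGraph V) (k : ℕ) (g : V → ℕ) : Prop :=
  (∀ v, g v ≤ k) ∧ ∀ v, k ≤ nsum G g v

/-- minimal `k`-dominating functions -/
def IsMinimalKDom {V : Type} [Fintype V] (G : SimpleGraph V) (k : ℕ) (g : V → ℕ) : Prop :=
  IsKDom G k g ∧ ∀ v, 0 < g v → ∃ u, (u = v ∨ G.Adj v u) ∧ nsum G g u = k

/-- the upper `k`-domination number: the maximum weight of a minimal `k`-dominating function -/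
noncomputable def upperK {V : Type} [Fintype V] (G : SimpleGraph V) (k : ℕ) : ℕ :=
  sSup {n | ∃ g : V → ℕ, IsMinimalKDom G k g ∧ n = ∑ v, g v}

open Pool.Agent.X147.UK in
theorem nsum_eq {r s : ℕ} (g : A r s ⊕ L r s → ℕ) (v : A r s ⊕ L r s) :
    nsum (G r s) g v = S g v := by
  classical
  unfold nsum S
  rw [Finset.sum_filter]
  exact Finset.sum_congr rfl fun w _ => if_congr (closed_iff v w) rfl rfl

open Pool.Agent.X147.UK in
theorem minimal_iff {r s : ℕ} (g : A r s ⊕ L r s → ℕ) (k : ℕ) :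
    IsMinimalKDom (G r s) k g ↔ Mn g k := by
  unfold IsMinimalKDom IsKDom Mn
  simp only [nsum_eq, closed_iff]
  tauto

open Pool.Agent.X147.UK in
theorem upper_bound (r s : ℕ) (hJ : 0 < Fintype.card (J r)) : upperK (G r s) (3 + 1) ≤
    4 * r + 4 + 8 * Fintype.card (J r) + s * (Fintype.card (P r) + 32 * r) := by
  refine csSup_le' ?_
  rintro n ⟨g, hg, rfl⟩
  exact total g ((minimal_iff g 4).1 hg) hJ

open Pool.Agent.X147.UK in
theorem lower_bound (r s : ℕ) (hr : 3 ≤ r) :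
    r + Fintype.card (P r) * (2 * s) ≤ upperK (G r s) 3 := by
  refine le_csSup ?_ ⟨g3, (minimal_iff g3 3).2 (mn_g3 hr), (total_g3 r s).symm⟩
  refine ⟨∑ _v : A r s ⊕ L r s, 3, ?_⟩
  rintro n ⟨g, hg, rfl⟩
  exact Finset.sum_le_sum fun v _ => hg.1.1 v

open Pool.Agent.X147.UK in
theorem gap (r s M : ℕ) (hr : 3 ≤ r) (hJ : 0 < Fintype.card (J r))
    (hP : 32 * r + 1 ≤ Fintype.card (P r))
    (hs : 4 * r + 4 + 8 * Fintype.card (J r) + M ≤ s) :
    upperK (G r s) (3 + 1) + M < upperK (G r s) 3 := by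
  have h1 := upper_bound r s hJ
  have h2 := lower_bound r s hr
  have h3 : s * (32 * r + 1) ≤ s * Fintype.card (P r) := Nat.mul_le_mul_left s hP
  nlinarith

/-- For every `M` there is a graph `G` with `Γ_4(G) + M < Γ_3(G)`. -/
theorem result : ∀ M : ℕ, ∃ (V : Type) (_ : Fintype V) (_ : Nonempty V) (G : SimpleGraph V),
    upperK G (3 + 1) + M < upperK G 3 := by
  intro M
  open Pool.Agent.X147.UK in
  obtain ⟨r, hr⟩ : ∃ r : ℕ, r = 40 := ⟨_, rfl⟩
  have h3 : 3 ≤ r := by omega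
  have hP : 32 * r + 1 ≤ Fintype.card (P r) := by rw [card_P, hr]; norm_num
  have hJ : 0 < Fintype.card (J r) :=
    Fintype.card_pos_iff.mpr ⟨(⟨(⟨0, by omega⟩, ⟨1, by omega⟩, ⟨2, by omega⟩),
      by simp, by simp, by simp⟩, true, 0)⟩
  exact ⟨_, inferInstance, ⟨Sum.inl (Sum.inl ⟨0, by omega⟩)⟩, G r _,
    gap r _ M h3 hJ hP le_rfl⟩

end Pool.Agent.Results.MP_92077f_co.NotMonotone
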